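import Pool.Agent.Helper64.Rig.Basics

/-!
# `StmtKer` (MP_148db9_ag): the kernel is generated by the Fermat quintic
-/

namespace Pool.Agent.Helper51.Rig

open MvPolynomial Pool.Agent.Helper64.Rig Module

/-- The restriction to the line `X 0 + X 1 = 0`. -/
noncomputable def psi : MvPolynomial (Fin 2) ℂ →ₐ[ℂ] MvPolynomial (Fin 2) ℂ :=
  aeval ![-X 1, X 1]

theorem psi_ker_sq {f : MvPolynomial (Fin 2) ℂ} (hf : f ∈ (RingHom.ker psi) ^ 2) :
    psi (pderiv 0 f) = 0 := by
  rw [pow_two] at hf
  refine Submodule.mul_induction_on hf ?_ ?_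
  · intro a ha b hb
    rw [RingHom.mem_ker] at ha hb
    rw [Derivation.leibniz, smul_eq_mul, smul_eq_mul, map_add, map_mul, map_mul, ha, hb]
    simp
  · intro a b ha hb
    rw [map_add, map_add, ha, hb, add_zero]

/-- The Fermat quintic as a polynomial in the first variable. -/
noncomputable def EP : Polynomial (MvPolynomial (Fin 2) ℂ) :=
  Polynomial.X ^ 5 + Polynomial.C (X 0 ^ 5 + X 1 ^ 5)

theorem EP_monic : EP.Monic := Polynomial.monic_X_pow_add_C _ (by norm_num)

theorem EP_natDegree : EP.natDegree = 5 := Polynomial.natDegree_X_pow_add_C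

theorem EP_irreducible : Irreducible EP := by
  have hpr : (RingHom.ker psi).IsPrime := RingHom.ker_isPrime psi
  refine Polynomial.IsEisensteinAt.irreducible (𝓟 := RingHom.ker psi) ?_ hpr
    EP_monic.isPrimitive (by rw [EP_natDegree]; norm_num)
  refine ⟨?_, ?_, ?_⟩
  · rw [EP_monic.leadingCoeff]
    intro h
    exact hpr.ne_top ((Ideal.eq_top_iff_one _).mpr h)
  · intro n hn
    rw [EP_natDegree] at hn
    rw [EP, Polynomial.coeff_add, Polynomial.coeff_X_pow, if_neg (by omega), zero_add,
      Polynomial.coeff_C]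
    split_ifs with h
    · rw [RingHom.mem_ker, psi, map_add, map_pow, map_pow, aeval_X, aeval_X]
      simp only [Matrix.cons_val_zero, Matrix.cons_val_one]
      ring
    · exact zero_mem _
  · intro h
    rw [EP, Polynomial.coeff_add, Polynomial.coeff_X_pow, if_neg (by norm_num), zero_add,
      Polynomial.coeff_C, if_pos rfl] at h
    have h1 := psi_ker_sq h
    rw [map_add, Derivation.leibniz_pow, Derivation.leibniz_pow, pderiv_X_self,
      pderiv_X_of_ne (by decide)] at h1
    simp only [smul_zero, mul_zero, add_zero, smul_eq_mul, mul_one, Nat.reduceSub] at h1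
    rw [map_nsmul, map_pow, psi, aeval_X] at h1
    simp only [Matrix.cons_val_zero] at h1
    have h2 : (X 1 : MvPolynomial (Fin 2) ℂ) ≠ 0 := X_ne_zero 1
    have h3 : ((-X 1 : MvPolynomial (Fin 2) ℂ)) ^ 4 ≠ 0 := pow_ne_zero _ (neg_ne_zero.mpr h2)
    rw [nsmul_eq_mul] at h1
    rcases mul_eq_zero.mp h1 with h4 | h4
    · norm_num at h4
    · exact h3 h4

theorem finSuccEquiv_FF : finSuccEquiv ℂ 2 FF = EP := by
  rw [FF, Fin.sum_univ_three, EP]
  simp only [map_add, map_pow]
  rw [finSuccEquiv_X_zero]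
  have h1 : finSuccEquiv ℂ 2 (X 1) = Polynomial.C (X 0) := finSuccEquiv_X_succ (j := 0)
  have h2 : finSuccEquiv ℂ 2 (X 2) = Polynomial.C (X 1) := finSuccEquiv_X_succ (j := 1)
  rw [h1, h2]
  ring

theorem FF_homog : FF.IsHomogeneous 5 :=
  IsHomogeneous.sum _ _ _ fun i _ => isHomogeneous_X_pow i 5

theorem FF_ne : FF ≠ 0 := by
  intro h
  have := finSuccEquiv_FF
  rw [h, map_zero] at this
  exact EP_irreducible.ne_zero this.symm

theorem pf_Ker : StmtKer := by
  intro K _ _ ζ x h
  have main : ∀ G : MvPolynomial (Fin 3) ℂ, aeval (pr x) G = 0 → FF ∣ G := by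
    intro G hG
    letI : Algebra (MvPolynomial (Fin 2) ℂ) K :=
      (aeval ![pr x 1, pr x 2] : MvPolynomial (Fin 2) ℂ →ₐ[ℂ] K).toRingHom.toAlgebra
    have hmap : ∀ f : MvPolynomial (Fin 2) ℂ,
        algebraMap (MvPolynomial (Fin 2) ℂ) K f = aeval ![pr x 1, pr x 2] f := fun f => rfl
    have hinj : Function.Injective (algebraMap (MvPolynomial (Fin 2) ℂ) K) := h.indep
    haveI : Module.IsTorsionFree (MvPolynomial (Fin 2) ℂ) K :=
      Module.isTorsionFree_iff_algebraMap_injective.mpr hinj
    have hcomp : ∀ G : MvPolynomial (Fin 3) ℂ,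
        Polynomial.aeval (pr x 0) (finSuccEquiv ℂ 2 G) = aeval (pr x) G := by
      intro G
      induction G using MvPolynomial.induction_on with
      | C a =>
        have : finSuccEquiv ℂ 2 (C a) = Polynomial.C (C a) := by
          simpa [algebraMap_eq, Polynomial.algebraMap_apply] using
            (finSuccEquiv ℂ 2).commutes a
        rw [this, Polynomial.aeval_C, hmap, aeval_C, aeval_C]
      | add p q hp hq => rw [map_add, map_add, map_add, hp, hq]
      | mul_X p i hp =>
        rw [map_mul, map_mul, map_mul, hp, aeval_X]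
        congr 1
        refine Fin.cases ?_ (fun j => ?_) i
        · rw [finSuccEquiv_X_zero, Polynomial.aeval_X]
        · rw [finSuccEquiv_X_succ, Polynomial.aeval_C, hmap, aeval_X]
          fin_cases j <;> rfl
    have hE : Polynomial.aeval (pr x 0) EP = 0 := by
      rw [← finSuccEquiv_FF, hcomp, aeval_FF h]
    have hint : IsIntegral (MvPolynomial (Fin 2) ℂ) (pr x 0) := ⟨EP, EP_monic, hE⟩
    have hdvd := minpoly.isIntegrallyClosed_dvd hint hE
    have hassoc : EP ∣ minpoly (MvPolynomial (Fin 2) ℂ) (pr x 0) := by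
      obtain ⟨q, hq⟩ := hdvd
      rcases EP_irreducible.isUnit_or_isUnit hq with hu | hu
      · exact absurd hu (minpoly.not_isUnit _ _)
      · rw [hq]
        obtain ⟨u, rfl⟩ := hu
        exact ⟨↑u⁻¹, by rw [mul_assoc, Units.mul_inv, mul_one]⟩
    have hG' : Polynomial.aeval (pr x 0) (finSuccEquiv ℂ 2 G) = 0 := by rw [hcomp, hG]
    have h1 := hassoc.trans (minpoly.isIntegrallyClosed_dvd hint hG')
    rw [← finSuccEquiv_FF] at h1
    obtain ⟨q, hq⟩ := h1
    refine ⟨(finSuccEquiv ℂ 2).symm q, ?_⟩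
    apply (finSuccEquiv ℂ 2).injective
    rw [map_mul, AlgEquiv.apply_symm_apply, hq]
  refine ⟨main, ?_⟩
  intro q G hq hGq hG
  obtain ⟨Q, hQ⟩ := main G hG
  by_contra hne
  have hQ0 : Q ≠ 0 := by
    rintro rfl
    rw [mul_zero] at hQ
    exact hne hQ
  have h1 := hGq.totalDegree hne
  rw [hQ, totalDegree_mul_of_isDomain FF_ne hQ0, FF_homog.totalDegree FF_ne] at h1
  omega

end Pool.Agent.Helper51.Rig
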