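import Pool.Agent.Helper64.Rig.Basics

/-!
# The deformation step: `StmtLift` (MP_148db9_ag)
-/

namespace Pool.Agent.Helper51.Rig

open MvPolynomial Pool.Agent.Helper64.Rig

section
variable {σ : Type} [Fintype σ] [DecidableEq σ] {R : Type} [CommRing R] [Algebra ℂ R]

/-- Extension of the scalars. -/
noncomputable abbrev up (R : Type) [CommRing R] [Algebra ℂ R] (G : MvPolynomial σ ℂ) :
    MvPolynomial σ R := MvPolynomial.map (algebraMap ℂ R) G

theorem map_up (x₀ : R →ₐ[ℂ] ℂ) (G : MvPolynomial σ ℂ) :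
    MvPolynomial.map (x₀ : R →+* ℂ) (up R G) = G := by
  have h : ((x₀ : R →+* ℂ).comp (algebraMap ℂ R)) = RingHom.id ℂ := by
    ext c
    simp
  rw [up, MvPolynomial.map_map, h, MvPolynomial.map_id]

theorem linear_homog (g : Matrix σ σ R) (i : σ) :
    (∑ j, C (g i j) * X j : MvPolynomial σ R).IsHomogeneous 1 :=
  IsHomogeneous.sum _ _ _ fun j _ => isHomogeneous_C_mul_X _ _

theorem lin_homog (g : Matrix σ σ R) {G : MvPolynomial σ R} {m : ℕ} (hG : G.IsHomogeneous m) :
    (lin g G).IsHomogeneous m := by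
  have := hG.aeval (n := 1) (fun i => ∑ j, C (g i j) * X j) (fun i => linear_homog g i)
  simpa [lin] using this

theorem der_add (A : Matrix σ σ ℂ) (G H : MvPolynomial σ ℂ) :
    der A (G + H) = der A G + der A H := by
  simp only [der, map_add, mul_add, Finset.sum_add_distrib]

theorem der_C (A : Matrix σ σ ℂ) (c : ℂ) : der A (C c) = 0 := by
  simp [der]

theorem der_mul_X (A : Matrix σ σ ℂ) (p : MvPolynomial σ ℂ) (i : σ) :
    der A (p * X i) = der A p * X i + p * ∑ j, C (A i j) * X j := by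
  simp only [der]
  have h1 : ∀ k : σ, pderiv k (p * X i) = pderiv k p * X i + p * (if k = i then 1 else 0) := by
    intro k
    rw [Derivation.leibniz, pderiv_X, smul_eq_mul, smul_eq_mul, Pi.single_apply]
    by_cases h : k = i
    · subst h; simp; ring
    · have h' : ¬ i = k := fun e => h e.symm
      simp [h, h']; ring
  simp only [h1, mul_add, Finset.sum_add_distrib]
  congr 1
  · rw [Finset.sum_mul]
    refine Finset.sum_congr rfl fun k _ => ?_
    rw [Finset.sum_mul]
    refine Finset.sum_congr rfl fun j _ => ?_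
    ring
  · rw [Finset.sum_eq_single i]
    · rw [Finset.mul_sum]
      refine Finset.sum_congr rfl fun j _ => ?_
      simp; ring
    · intro k _ hk
      simp [hk]
    · intro h; exact absurd (Finset.mem_univ _) h

theorem der_homog (A : Matrix σ σ ℂ) {G : MvPolynomial σ ℂ} {m : ℕ} (hG : G.IsHomogeneous m) :
    (der A G).IsHomogeneous m := by
  rcases m with _ | m
  · have : G = C (coeff 0 G) := by
      have := (totalDegree_zero_iff_isHomogeneous (σ := σ)).mpr hG
      exact totalDegree_eq_zero_iff_eq_C.mp this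
    rw [this, der_C]
    exact isHomogeneous_zero _ _ _
  · refine IsHomogeneous.sum _ _ _ fun i _ => IsHomogeneous.sum _ _ _ fun j _ => ?_
    have h1 : (pderiv i G).IsHomogeneous m := by
      have := hG.pderiv (i := i)
      simpa using this
    have h2 := (isHomogeneous_C_mul_X (A i j) j).mul h1
    rwa [Nat.add_comm] at h2

end

section
variable {σ : Type} [Fintype σ] [DecidableEq σ] {R : Type} [CommRing R] [Algebra ℂ R]
  {𝔠 : Ideal R} {ε : R} {x₀ : R →ₐ[ℂ] ℂ}

theorem C_mul_mem (h : ∀ r ∈ RingHom.ker x₀, r * ε ∈ 𝔠) {z : MvPolynomial σ R}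
    (hz : MvPolynomial.map (x₀ : R →+* ℂ) z = 0) :
    C ε * z ∈ 𝔠.map (C : R →+* MvPolynomial σ R) := by
  rw [mem_map_C_iff]
  intro a
  rw [coeff_C_mul, mul_comm]
  refine h _ ?_
  have := congrArg (coeff a) hz
  rw [coeff_map, coeff_zero] at this
  exact this

theorem map_lin (g : Matrix σ σ R) (hg : ∀ i j, x₀ (g i j) = (1 : Matrix σ σ ℂ) i j)
    (G : MvPolynomial σ R) :
    MvPolynomial.map (x₀ : R →+* ℂ) (lin g G) = MvPolynomial.map (x₀ : R →+* ℂ) G := by
  induction G using MvPolynomial.induction_on with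
  | C a =>
    have : lin g (C a) = C a := by
      have := (lin g).commutes a
      simpa [algebraMap_eq] using this
    rw [this]
  | add p q hp hq => simp only [map_add, hp, hq]
  | mul_X p i hp =>
    rw [map_mul, map_mul, map_mul, hp]
    congr 1
    simp only [lin, aeval_X, map_sum, map_mul, map_C, map_X]
    rw [Finset.sum_eq_single i]
    · have := hg i i
      simp only [Matrix.one_apply_eq] at this
      simp [this]
    · intro j _ hj
      have := hg i j
      rw [Matrix.one_apply_ne (Ne.symm hj)] at this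
      simp [this]
    · intro h; exact absurd (Finset.mem_univ _) h

/-- Taylor expansion. -/
theorem taylor (h : ∀ r ∈ RingHom.ker x₀, r * ε ∈ 𝔠) (he : x₀ ε = 0) (g : Matrix σ σ R)
    (hg : ∀ i j, x₀ (g i j) = (1 : Matrix σ σ ℂ) i j) (A : Matrix σ σ ℂ)
    (G : MvPolynomial σ ℂ) :
    lin (fun i j => g i j + ε * algebraMap ℂ R (A i j)) (up R G) -
      lin g (up R G) - C ε * up R (der A G) ∈ 𝔠.map (C : R →+* MvPolynomial σ R) := by
  induction G using MvPolynomial.induction_on with
  | C a =>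
    have h1 : ∀ g : Matrix σ σ R, lin g (up R (C a)) = C (algebraMap ℂ R a) := by
      intro g
      have := (lin g).commutes (algebraMap ℂ R a)
      simpa [algebraMap_eq] using this
    rw [h1, h1, der_C]
    simp
  | add p q hp hq =>
    have := add_mem hp hq
    rw [der_add]
    simp only [up, map_add] at this ⊢
    refine (congrArg (· ∈ _) ?_).mp this
    ring
  | mul_X p i hp =>
    set g' : Matrix σ σ R := fun i j => g i j + ε * algebraMap ℂ R (A i j) with hg'
    set T := lin g' (up R p) with hT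
    set P := lin g (up R p) with hP
    set D := up R (der A p) with hD
    set Q := lin g (X i) with hQ
    set L : MvPolynomial σ R := up R (∑ j, C (A i j) * X j) with hL
    have hQL : lin g' (X i) = Q + C ε * L := by
      simp only [hQ, lin, aeval_X, hL, up, map_sum, map_mul, map_C, map_X, hg', map_add]
      rw [Finset.mul_sum, ← Finset.sum_add_distrib]
      refine Finset.sum_congr rfl fun j _ => ?_
      ring
    have e1 : lin g' (up R (p * X i)) = T * (Q + C ε * L) := by
      rw [up, map_mul, map_mul, map_X, hQL]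
    have e2 : lin g (up R (p * X i)) = P * Q := by
      rw [up, map_mul, map_mul, map_X]
    have e3 : up R (der A (p * X i)) = D * X i + up R p * L := by
      rw [der_mul_X, up, map_add, map_mul, map_mul, map_X]
    rw [e1, e2, e3]
    have k1 : (T - P - C ε * D) * (Q + C ε * L) ∈ 𝔠.map (C : R →+* MvPolynomial σ R) :=
      Ideal.mul_mem_right _ _ hp
    have k2 : C ε * (Q - X i) ∈ 𝔠.map (C : R →+* MvPolynomial σ R) := by
      refine C_mul_mem h ?_
      rw [map_sub, hQ, map_lin g hg, sub_self]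
    have k3 : C ε * (P - up R p) ∈ 𝔠.map (C : R →+* MvPolynomial σ R) := by
      refine C_mul_mem h ?_
      rw [map_sub, hP, map_lin g hg, sub_self]
    have k4 : C ε * (C ε : MvPolynomial σ R) ∈ 𝔠.map (C : R →+* MvPolynomial σ R) := by
      refine C_mul_mem h ?_
      rw [map_C]
      have : (x₀ : R →+* ℂ) ε = 0 := he
      rw [this, C_0]
    have k5 := add_mem (add_mem (add_mem k1 (Ideal.mul_mem_left _ D k2))
      (Ideal.mul_mem_left _ L k3)) (Ideal.mul_mem_left _ (D * L) k4)
    refine (congrArg (· ∈ _) ?_).mp k5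
    ring

/-- A linear map sends a polynomial with coefficients in an ideal to such a polynomial. -/
theorem linear_mem_map_C (π : MvPolynomial σ R →ₗ[R] MvPolynomial σ R) {c : MvPolynomial σ R}
    (hc : c ∈ 𝔠.map (C : R →+* MvPolynomial σ R)) :
    π c ∈ 𝔠.map (C : R →+* MvPolynomial σ R) := by
  rw [mem_map_C_iff] at hc
  have e : c = ∑ a ∈ c.support, coeff a c • (monomial a (1 : R)) := by
    conv_lhs => rw [c.as_sum]
    refine Finset.sum_congr rfl fun a _ => ?_
    rw [smul_monomial, smul_eq_mul, mul_one]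
  rw [e, map_sum]
  refine sum_mem fun a _ => ?_
  rw [map_smul, smul_eq_C_mul]
  exact Ideal.mul_mem_right _ _ (Ideal.mem_map_of_mem _ (hc a))

theorem homogComp_mem_map_C {c : MvPolynomial σ R} (m : ℕ)
    (hc : c ∈ 𝔠.map (C : R →+* MvPolynomial σ R)) :
    homogeneousComponent m c ∈ 𝔠.map (C : R →+* MvPolynomial σ R) :=
  linear_mem_map_C (homogeneousComponent m) hc

/-- An element of the sum which is homogeneous is a sum of homogeneous elements. -/
theorem mem_sup_homog {J : Ideal (MvPolynomial σ R)} (hJ : Homog J) {z : MvPolynomial σ R} {m : ℕ}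
    (hz : z.IsHomogeneous m) (h : z ∈ J ⊔ 𝔠.map (C : R →+* MvPolynomial σ R)) :
    ∃ j ∈ J, ∃ c ∈ 𝔠.map (C : R →+* MvPolynomial σ R),
      j.IsHomogeneous m ∧ c.IsHomogeneous m ∧ z = j + c := by
  obtain ⟨j, hj, c, hc, e⟩ := Submodule.mem_sup.mp h
  refine ⟨_, hJ j hj m, _, homogComp_mem_map_C m hc, homogeneousComponent_isHomogeneous _ _,
    homogeneousComponent_isHomogeneous _ _, ?_⟩
  rw [← map_add, e]
  exact (homogeneousComponent_eq_self hz).symm

theorem up_homog {G : MvPolynomial σ ℂ} {m : ℕ} (hG : G.IsHomogeneous m) :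
    (up R G).IsHomogeneous m := hG.map _

end

theorem pf_Lift : StmtLift := by
  intro σ _ _ R _ _ J I x₀ m₀ hF hI 𝔠 𝔠' ε hc hm he hT
  by_cases hε : ε ∈ 𝔠'
  · have : 𝔠 = 𝔠' := by
      rw [he, sup_eq_left, Ideal.span_singleton_le_iff_mem]
      exact hε
    rwa [← this]
  have hε𝔠 : ε ∈ 𝔠 := by
    rw [he]
    exact Ideal.mem_sup_right (Ideal.mem_span_singleton_self ε)
  have hx₀ε : x₀ ε = 0 := hc hε𝔠
  have h1 : ∀ r ∈ RingHom.ker x₀, r * ε ∈ 𝔠' := fun r hr => hm (Ideal.mul_mem_mul hr hε𝔠)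
  have h2 : ∀ r : R, r * ε ∈ 𝔠' → x₀ r = 0 := by
    intro r hr
    by_contra hne
    apply hε
    have k1 : (r - algebraMap ℂ R (x₀ r)) * ε ∈ 𝔠' := h1 _ (by
      rw [RingHom.mem_ker, map_sub, AlgHom.commutes]
      simp)
    have k2 : algebraMap ℂ R (x₀ r) * ε ∈ 𝔠' := by
      have := sub_mem hr k1
      refine (congrArg (· ∈ _) ?_).mp this
      ring
    have k3 := Ideal.mul_mem_left _ (algebraMap ℂ R (x₀ r)⁻¹) k2
    rw [← mul_assoc, ← map_mul, inv_mul_cancel₀ hne, map_one, one_mul] at k3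
    exact k3
  -- (A)
  have hA1 : ∀ m ≥ m₀, ∀ H : MvPolynomial σ ℂ, H.IsHomogeneous m → H ∈ I →
      C ε * up R H ∈ J ⊔ 𝔠'.map (C : R →+* MvPolynomial σ R) := by
    intro m hm H hH hHI
    have hf := (hF.fib m hm H hH).mpr hHI
    have hsurj : Function.Surjective (MvPolynomial.map (σ := σ) (x₀ : R →+* ℂ)) :=
      fun G => ⟨up R G, map_up x₀ G⟩
    obtain ⟨j, hj, hjH⟩ := (Ideal.mem_map_iff_of_surjective _ hsurj).mp hf
    have k1 : C ε * (up R H - j) ∈ 𝔠'.map (C : R →+* MvPolynomial σ R) := by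
      refine C_mul_mem h1 ?_
      rw [map_sub, map_up, hjH, sub_self]
    have k2 : C ε * j ∈ J := Ideal.mul_mem_left _ _ hj
    have := add_mem (Ideal.mem_sup_right (S := J) k1)
      (Ideal.mem_sup_left (T := 𝔠'.map (C : R →+* MvPolynomial σ R)) k2)
    refine (congrArg (· ∈ _) ?_).mp this
    ring
  have hA2 : ∀ m ≥ m₀, ∀ H : MvPolynomial σ ℂ, H.IsHomogeneous m →
      C ε * up R H ∈ J ⊔ 𝔠'.map (C : R →+* MvPolynomial σ R) → H ∈ I := by
    intro m hm H hH hmem
    have hz : (C ε * up R H).IsHomogeneous m := (up_homog hH).C_mul ε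
    obtain ⟨j, hj, c, hc', hjm, hcm, e⟩ := mem_sup_homog hF.homogJ hz hmem
    obtain ⟨π, hπ⟩ := hF.split m hm
    have k1 : π (C ε * up R H) = π c := by
      rw [e, map_add, (hπ j hjm).2.2 hj, zero_add]
    have k2 : π c ∈ 𝔠'.map (C : R →+* MvPolynomial σ R) := linear_mem_map_C π hc'
    rw [← k1, ← smul_eq_C_mul, map_smul, smul_eq_C_mul, mem_map_C_iff] at k2
    have k3 : MvPolynomial.map (x₀ : R →+* ℂ) (π (up R H)) = 0 := by
      ext a
      rw [coeff_map, coeff_zero]
      refine h2 _ ?_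
      have := k2 a
      rwa [coeff_C_mul, mul_comm] at this
    have k4 := (hπ (up R H) (up_homog hH)).2.1
    have k5 := Ideal.mem_map_of_mem (MvPolynomial.map (σ := σ) (x₀ : R →+* ℂ)) k4
    rw [map_sub, map_up, k3, sub_zero] at k5
    exact (hF.fib m hm H hH).mp k5
  obtain ⟨g, hg1, hg⟩ := hT
  -- the first order deformation
  let D : ℕ → Submodule ℂ (MvPolynomial σ ℂ × MvPolynomial σ ℂ) := fun m =>
    { carrier := {z | z.1.IsHomogeneous m ∧ z.2.IsHomogeneous m ∧ z.1 ∈ I ∧
        lin g (up R z.1) + C ε * up R z.2 ∈ J ⊔ 𝔠'.map (C : R →+* MvPolynomial σ R)}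
      add_mem' := by
        rintro a b ⟨a1, a2, a3, a4⟩ ⟨b1, b2, b3, b4⟩
        refine ⟨a1.add b1, a2.add b2, add_mem a3 b3, ?_⟩
        have := add_mem a4 b4
        refine (congrArg (· ∈ _) ?_).mp this
        simp only [up, Prod.fst_add, Prod.snd_add, map_add]
        ring
      zero_mem' := by
        refine ⟨isHomogeneous_zero _ _ _, isHomogeneous_zero _ _ _, zero_mem _, ?_⟩
        simp
      smul_mem' := by
        rintro c a ⟨a1, a2, a3, a4⟩
        refine ⟨?_, ?_, ?_, ?_⟩
        · simpa [smul_eq_C_mul] using a1.C_mul c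
        · simpa [smul_eq_C_mul] using a2.C_mul c
        · simpa [smul_eq_C_mul] using Ideal.mul_mem_left I (C c) a3
        · have := Ideal.mul_mem_left _ (C (algebraMap ℂ R c)) a4
          refine (congrArg (· ∈ _) ?_).mp this
          have e1 : lin g (C (algebraMap ℂ R c)) = C (algebraMap ℂ R c) := by
            have := (lin g).commutes (algebraMap ℂ R c)
            simpa [algebraMap_eq] using this
          simp only [up, Prod.smul_fst, Prod.smul_snd, smul_eq_C_mul, map_mul, map_C, e1]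
          ring }
  have hDmem : ∀ m z, z ∈ D m ↔ (z.1.IsHomogeneous m ∧ z.2.IsHomogeneous m ∧ z.1 ∈ I ∧
        lin g (up R z.1) + C ε * up R z.2 ∈ J ⊔ 𝔠'.map (C : R →+* MvPolynomial σ R)) :=
    fun m z => Iff.rfl
  have hD2 : ∀ m ≥ m₀, ∀ G ∈ I, G.IsHomogeneous m → ∃ H, (G, H) ∈ D m := by
    intro m hm G hG hGm
    obtain ⟨j, hj, c, hc', hjm, hcm, e⟩ := mem_sup_homog hF.homogJ
      (lin_homog g (up_homog hGm)) (hg m hm G hG hGm)
    have hc2 : ∀ a : σ →₀ ℕ, ∃ r : R, coeff a c - r * ε ∈ 𝔠' := by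
      intro a
      have := (mem_map_C_iff.mp hc') a
      rw [he] at this
      obtain ⟨u, hu, v, hv, e⟩ := Submodule.mem_sup.mp this
      obtain ⟨r, rfl⟩ := Ideal.mem_span_singleton'.mp hv
      exact ⟨r, by rw [← e]; simpa using hu⟩
    choose r hr using hc2
    let H : MvPolynomial σ ℂ := ∑ a ∈ c.support, monomial a (-(x₀ (r a)))
    have hHm : H.IsHomogeneous m := by
      refine IsHomogeneous.sum _ _ _ fun a ha => isHomogeneous_monomial _ ?_
      exact degree_of_homog hcm (mem_support_iff.mp ha)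
    have hHc : ∀ a, coeff a H = if a ∈ c.support then -(x₀ (r a)) else 0 := by
      intro a
      simp only [H, coeff_sum, coeff_monomial]
      rw [Finset.sum_ite_eq']
    refine ⟨H, (hDmem _ _).mpr ⟨hGm, hHm, hG, ?_⟩⟩
    have k : c + C ε * up R H ∈ 𝔠'.map (C : R →+* MvPolynomial σ R) := by
      rw [mem_map_C_iff]
      intro a
      rw [coeff_add, coeff_C_mul, up, coeff_map, hHc]
      split_ifs with ha
      · have k1 : (r a - algebraMap ℂ R (x₀ (r a))) * ε ∈ 𝔠' := h1 _ (by
          rw [RingHom.mem_ker, map_sub, AlgHom.commutes]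
          simp)
        have := add_mem (hr a) k1
        refine (congrArg (· ∈ _) ?_).mp this
        rw [map_neg]
        ring
      · rw [notMem_support_iff.mp ha, map_zero, mul_zero, add_zero]
        exact zero_mem _
    have := add_mem (Ideal.mem_sup_left (T := 𝔠'.map (C : R →+* MvPolynomial σ R)) hj)
      (Ideal.mem_sup_right (S := J) k)
    refine (congrArg (· ∈ _) ?_).mp this
    simp only [e]
    ring
  obtain ⟨A, hA⟩ := hI m₀ D (fun m _ z hz => ⟨hz.1, hz.2.1, hz.2.2.1⟩) hD2
    (by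
      intro m hm H hH
      constructor
      · rintro ⟨_, _, _, h4⟩
        refine hA2 m hm H hH ?_
        simpa using h4
      · intro hHI
        refine (hDmem _ _).mpr ⟨isHomogeneous_zero _ _ _, hH, zero_mem _, ?_⟩
        simpa using hA1 m hm H hH hHI)
    (by
      rintro m hm z ⟨a1, a2, a3, a4⟩ i
      refine (hDmem _ _).mpr ⟨?_, ?_, Ideal.mul_mem_left _ _ a3, ?_⟩
      · have := (isHomogeneous_X ℂ i).mul a1
        rwa [Nat.add_comm] at this
      · have := (isHomogeneous_X ℂ i).mul a2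
        rwa [Nat.add_comm] at this
      · have k1 := Ideal.mul_mem_left _ (lin g (X i)) a4
        have k2 : C ε * (lin g (X i) - X i) ∈ 𝔠'.map (C : R →+* MvPolynomial σ R) := by
          refine C_mul_mem h1 ?_
          rw [map_sub, map_lin g hg1, sub_self]
        have k3 := sub_mem k1 (Ideal.mem_sup_right (S := J) (Ideal.mul_mem_left _ (up R z.2) k2))
        refine (congrArg (· ∈ _) ?_).mp k3
        simp only [up, map_mul, map_X]
        ring)
  refine ⟨fun i j => g i j + ε * algebraMap ℂ R (A i j), ?_, ?_⟩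
  · intro i j
    rw [map_add, map_mul, hx₀ε, zero_mul, add_zero]
    exact hg1 i j
  · intro m hm G hG hGm
    obtain ⟨H, hH⟩ := hD2 m hm G hG hGm
    have k1 := hA m hm (G, H) hH
    obtain ⟨_, a2, _, a4⟩ := (hDmem _ _).mp hH
    have k2 := hA1 m hm (H - der A G) (a2.sub (der_homog A hGm)) k1
    have k3 := taylor (𝔠 := 𝔠') h1 hx₀ε g hg1 A G
    have := add_mem (sub_mem a4 k2) (Ideal.mem_sup_right (S := J) k3)
    refine (congrArg (· ∈ _) ?_).mp this
    simp only [up, map_sub]
    ring

end Pool.Agent.Helper51.Rig
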