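import Pool.Agent.Helper64.Rig.Basics

/-!
# `StmtPt5` (MP_148db9_ag)
-/

namespace Pool.Agent.Helper51.Rig

open MvPolynomial Pool.Agent.Helper64.Rig Module

section
variable {K : Type} [Field K] [Algebra ℂ K] {ζ : ℂ} {x : Jx → K}

theorem AA_succ (k : ℕ) : AA x (k + 1) = AA x k * AA x 1 := by
  have h : homogeneousSubmodule (Fin 3) ℂ (k + 1) =
      homogeneousSubmodule (Fin 3) ℂ k * homogeneousSubmodule (Fin 3) ℂ 1 := by
    have h1 := homogeneousSubmodule_one_pow (R := ℂ) (σ := Fin 3) k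
    have h2 := homogeneousSubmodule_one_pow (R := ℂ) (σ := Fin 3) (k + 1)
    rw [← h1, ← pow_succ, h2]
  rw [AA, AA, AA, h, Submodule.map_mul]

/-- The coordinates of the linear forms with respect to `l, l', m`. -/
def Coord (x : Jx → K) (l l' m : K) : Prop :=
  ∀ f ∈ AA x 1, ∃ a b c : ℂ, f = algebraMap ℂ K a * l + algebraMap ℂ K b * l' + algebraMap ℂ K c * m

theorem exists_coord (hDim : finrank ℂ (AA x 1) = 3) {l l' : K} (hl : l ∈ AA x 1) (hl' : l' ∈ AA x 1)
    (hli : LinearIndependent ℂ ![l, l']) :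
    ∃ m ∈ AA x 1, Coord x l l' m ∧ ¬ AA x 1 ≤ Submodule.span ℂ {l, l'} := by
  haveI : FiniteDimensional ℂ (AA x 1) := Module.finite_of_finrank_pos (by rw [hDim]; norm_num)
  set S := Submodule.span ℂ {l, l'} with hS
  have hSle : S ≤ AA x 1 := by
    rw [hS, Submodule.span_le]
    rintro z (rfl | rfl)
    · exact hl
    · exact hl'
  haveI : FiniteDimensional ℂ S := Submodule.finiteDimensional_of_le hSle
  have hS2 : finrank ℂ S = 2 := by
    have := finrank_span_eq_card hli
    rw [Matrix.range_cons, Matrix.range_cons, Matrix.range_empty, Set.union_empty,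
      Set.singleton_union, Fintype.card_fin, ← hS] at this
    exact this
  have hlt : ¬ AA x 1 ≤ S := by
    intro h
    have := Submodule.finrank_mono h
    omega
  obtain ⟨m, hm, hmS⟩ := Set.not_subset.mp hlt
  refine ⟨m, hm, ?_, hlt⟩
  have hTle : S ⊔ Submodule.span ℂ {m} ≤ AA x 1 :=
    sup_le hSle ((Submodule.span_singleton_le_iff_mem _ _).mpr hm)
  haveI : FiniteDimensional ℂ (S ⊔ Submodule.span ℂ {m} : Submodule ℂ K) :=
    Submodule.finiteDimensional_of_le hTle
  have hSlt : S < S ⊔ Submodule.span ℂ {m} := by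
    refine lt_of_le_of_ne le_sup_left ?_
    intro e
    apply hmS
    rw [e]
    exact Submodule.mem_sup_right (Submodule.mem_span_singleton_self m)
  have h3 := Submodule.finrank_lt_finrank_of_lt hSlt
  have hTeq : S ⊔ Submodule.span ℂ {m} = AA x 1 :=
    Submodule.eq_of_le_of_finrank_le hTle (by omega)
  intro f hf
  rw [← hTeq] at hf
  obtain ⟨s, hs, t, ht, rfl⟩ := Submodule.mem_sup.mp hf
  obtain ⟨a, b, rfl⟩ := Submodule.mem_span_pair.mp hs
  obtain ⟨c, rfl⟩ := Submodule.mem_span_singleton.mp ht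
  exact ⟨a, b, c, by simp only [Algebra.smul_def]⟩

theorem decomp {l l' m : K} (hl : l ∈ AA x 1) (hl' : l' ∈ AA x 1) (hm : m ∈ AA x 1)
    (hc : Coord x l l' m) (k : ℕ) : ∀ g ∈ AA x (k + 1), ∃ c : ℂ, ∃ u ∈ AA x k, ∃ u' ∈ AA x k,
      g = algebraMap ℂ K c * m ^ (k + 1) + l * u + l' * u' := by
  induction k with
  | zero =>
    intro g hg
    obtain ⟨a, b, c, rfl⟩ := hc g hg
    refine ⟨c, _, const_mem_AA a, _, const_mem_AA b, ?_⟩
    ring
  | succ k ih =>
    intro g hg
    rw [AA_succ] at hg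
    refine Submodule.mul_induction_on hg ?_ ?_
    · intro f hf h hh
      obtain ⟨c, u, hu, u', hu', rfl⟩ := ih f hf
      obtain ⟨a, b, d, e⟩ := hc h hh
      have hmk : m ^ (k + 1) ∈ AA x (k + 1) := by
        have := AA_pow hm (k + 1)
        rwa [mul_one] at this
      refine ⟨c * d, algebraMap ℂ K (a * c) * m ^ (k + 1) + u * h, ?_,
        algebraMap ℂ K (b * c) * m ^ (k + 1) + u' * h, ?_, ?_⟩
      · exact add_mem (const_mul_mem_AA _ hmk) (AA_mul hu hh)
      · exact add_mem (const_mul_mem_AA _ hmk) (AA_mul hu' hh)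
      · simp only [map_mul]
        rw [e]
        ring
    · rintro a b ⟨c, u, hu, u', hu', rfl⟩ ⟨d, v, hv, v', hv', rfl⟩
      refine ⟨c + d, u + v, add_mem hu hv, u' + v', add_mem hu' hv', ?_⟩
      rw [map_add]
      ring

/-- The part of order `s` in `l, l'` of the forms of degree `s + k`. -/
noncomputable def PP (x : Jx → K) (l l' : K) (s k : ℕ) : Submodule ℂ K :=
  Submodule.span ℂ {z | ∃ a b : ℕ, a + b = s ∧ ∃ g ∈ AA x k, z = l ^ a * l' ^ b * g}

theorem gen_mem_PP {l l' : K} {s k a b : ℕ} (h : a + b = s) {g : K} (hg : g ∈ AA x k) :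
    l ^ a * l' ^ b * g ∈ PP x l l' s k :=
  Submodule.subset_span ⟨a, b, h, g, hg, rfl⟩

theorem PP_le {l l' : K} (hl : l ∈ AA x 1) (hl' : l' ∈ AA x 1) (s k : ℕ) :
    PP x l l' s k ≤ AA x (s + k) := by
  rw [PP, Submodule.span_le]
  rintro z ⟨a, b, h, g, hg, rfl⟩
  have h1 := AA_mul (AA_mul (AA_pow hl a) (AA_pow hl' b)) hg
  rwa [mul_one, mul_one, h] at h1

theorem PP_swap {l l' : K} (s k : ℕ) : PP x l l' s k = PP x l' l s k := by
  rw [PP, PP]
  congr 1
  ext z
  constructor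
  · rintro ⟨a, b, h, g, hg, rfl⟩
    exact ⟨b, a, by omega, g, hg, by ring⟩
  · rintro ⟨a, b, h, g, hg, rfl⟩
    exact ⟨b, a, by omega, g, hg, by ring⟩

/-- The relation: at least one of the leading coefficients does not vanish. -/
theorem relation (hKer : StmtKer) (h : Cov ζ x) {l l' m : K} (hl : l ∈ AA x 1) (hl' : l' ∈ AA x 1)
    (hm : m ∈ AA x 1) (hc : Coord x l l' m) (hn : ¬ AA x 1 ≤ Submodule.span ℂ {l, l'}) :
    ∃ c a b : ℂ, (c ≠ 0 ∨ a ≠ 0 ∨ b ≠ 0) ∧ ∃ u ∈ AA x 3, ∃ v ∈ AA x 3, ∃ w ∈ AA x 3,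
      algebraMap ℂ K c * m ^ 5 + m ^ 4 * (algebraMap ℂ K a * l + algebraMap ℂ K b * l') +
        l ^ 2 * u + l * l' * v + l' ^ 2 * w = 0 := by
  have hp : ∀ i : Fin 3, ∃ a b c : ℂ, pr x i = algebraMap ℂ K a * l + algebraMap ℂ K b * l' +
      algebraMap ℂ K c * m := fun i => hc _ (pr_mem_AA i)
  choose α β w hw using hp
  -- `f ^ 5` expanded
  have key : ∀ i : Fin 3, ∃ u ∈ AA x 3, ∃ v ∈ AA x 3, ∃ t ∈ AA x 3,
      pr x i ^ 5 = algebraMap ℂ K (w i ^ 5) * m ^ 5 + m ^ 4 * (algebraMap ℂ K (5 * w i ^ 4 * α i) * l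
        + algebraMap ℂ K (5 * w i ^ 4 * β i) * l') + l ^ 2 * u + l * l' * v + l' ^ 2 * t := by
    intro i
    set A := algebraMap ℂ K (α i) with hA
    set B := algebraMap ℂ K (β i) with hB
    set W := algebraMap ℂ K (w i) with hW
    have hU : A * l + B * l' ∈ AA x 1 := add_mem (const_mul_mem_AA _ hl) (const_mul_mem_AA _ hl')
    have hM : W * m ∈ AA x 1 := const_mul_mem_AA _ hm
    -- the quotient
    have hR : 10 * (W * m) ^ 3 + 10 * (W * m) ^ 2 * (A * l + B * l') +
        5 * (W * m) * (A * l + B * l') ^ 2 + (A * l + B * l') ^ 3 ∈ AA x 3 := by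
      have n10 : ∀ {q : ℕ} {z : K}, z ∈ AA x q → 10 * z ∈ AA x q := by
        intro q z hz
        have := const_mul_mem_AA (10 : ℂ) hz
        rwa [map_ofNat] at this
      have n5 : ∀ {q : ℕ} {z : K}, z ∈ AA x q → 5 * z ∈ AA x q := by
        intro q z hz
        have := const_mul_mem_AA (5 : ℂ) hz
        rwa [map_ofNat] at this
      have k1 : (W * m) ^ 3 ∈ AA x 3 := by simpa using AA_pow hM 3
      have k2 : (W * m) ^ 2 * (A * l + B * l') ∈ AA x 3 := by
        have := AA_mul (AA_pow hM 2) hU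
        simpa using this
      have k3 : (W * m) * (A * l + B * l') ^ 2 ∈ AA x 3 := by
        have := AA_mul hM (AA_pow hU 2)
        simpa using this
      have k4 : (A * l + B * l') ^ 3 ∈ AA x 3 := by simpa using AA_pow hU 3
      have := add_mem (add_mem (add_mem (n10 k1) (n10 k2)) (n5 k3)) k4
      refine (congrArg (· ∈ _) ?_).mp this
      ring
    set Q := 10 * (W * m) ^ 3 + 10 * (W * m) ^ 2 * (A * l + B * l') +
        5 * (W * m) * (A * l + B * l') ^ 2 + (A * l + B * l') ^ 3 with hQ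
    refine ⟨algebraMap ℂ K (α i ^ 2) * Q, const_mul_mem_AA _ hR,
      algebraMap ℂ K (2 * α i * β i) * Q, const_mul_mem_AA _ hR,
      algebraMap ℂ K (β i ^ 2) * Q, const_mul_mem_AA _ hR, ?_⟩
    rw [hw i]
    simp only [map_mul, map_pow, map_ofNat, ← hA, ← hB, ← hW]
    rw [hQ]
    ring
  choose u hu v hv t ht e using key
  refine ⟨∑ i, w i ^ 5, ∑ i, 5 * w i ^ 4 * α i, ∑ i, 5 * w i ^ 4 * β i, ?_, ∑ i, u i,
    sum_mem fun i _ => hu i, ∑ i, v i, sum_mem fun i _ => hv i, ∑ i, t i,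
    sum_mem fun i _ => ht i, ?_⟩
  · by_contra hcon
    push Not at hcon
    obtain ⟨h1, h2, h3⟩ := hcon
    have hz : ∑ i, algebraMap ℂ K (w i ^ 4) * pr x i = 0 := by
      have e1 : ∑ i, algebraMap ℂ K (w i ^ 4) * pr x i =
          algebraMap ℂ K (∑ i, w i ^ 5) * m +
          algebraMap ℂ K ((∑ i, 5 * w i ^ 4 * α i) / 5) * l +
          algebraMap ℂ K ((∑ i, 5 * w i ^ 4 * β i) / 5) * l' := by
        rw [Finset.sum_div, Finset.sum_div, map_sum, map_sum, map_sum, Finset.sum_mul,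
          Finset.sum_mul, Finset.sum_mul, ← Finset.sum_add_distrib, ← Finset.sum_add_distrib]
        refine Finset.sum_congr rfl fun i _ => ?_
        rw [hw i]
        have a1 : 5 * w i ^ 4 * α i / 5 = w i ^ 4 * α i := by ring
        have a2 : 5 * w i ^ 4 * β i / 5 = w i ^ 4 * β i := by ring
        rw [a1, a2]
        simp only [map_mul, map_pow]
        ring
      rw [e1, h1, h2, h3]
      simp
    have hG := (hKer K ζ x h).2 1 (∑ i, C (w i ^ 4) * X i) (by norm_num)
      (IsHomogeneous.sum _ _ _ fun i _ => isHomogeneous_C_mul_X _ _) (by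
        simp only [map_sum, map_mul, aeval_X, aeval_C]
        exact hz)
    have hw0 : ∀ i, w i = 0 := by
      intro i
      have := congrArg (coeff (Finsupp.single i 1)) hG
      rw [coeff_sum, coeff_zero] at this
      simp only [coeff_C_mul, coeff_X] at this
      rw [Finset.sum_eq_single i] at this
      · simpa using this
      · intro j _ hj
        rw [if_neg, mul_zero]
        intro h
        exact hj (Finsupp.single_left_injective one_ne_zero h)
      · intro h; exact absurd (Finset.mem_univ _) h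
    apply hn
    intro f hf
    obtain ⟨L, rfl⟩ := mem_AA_one.1 hf
    refine sum_mem fun i _ => ?_
    rw [hw i, hw0 i, map_zero, zero_mul, add_zero, ← Algebra.smul_def, ← Algebra.smul_def,
      ← Algebra.smul_def]
    exact Submodule.smul_mem _ _ (Submodule.mem_span_pair.mpr ⟨α i, β i, rfl⟩)
  · have hf := fermat h
    rw [e 0, e 1, e 2] at hf
    rw [← hf]
    simp only [Fin.sum_univ_three, map_add]
    ring

/-- One step of the filtration, the main case. -/
theorem step_aux {l l' m : K} (hl : l ∈ AA x 1) (hl' : l' ∈ AA x 1) (hm : m ∈ AA x 1)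
    (hc : Coord x l l' m) (s k : ℕ) (v : K)
    (hv : ∀ a b : ℕ, a + b = s → l ^ a * l' ^ b * m ^ (k + 1) ∈
      PP x l l' (s + 1) k ⊔ Submodule.span ℂ {v}) :
    PP x l l' s (k + 1) ≤ PP x l l' (s + 1) k ⊔ Submodule.span ℂ {v} := by
  rw [PP, Submodule.span_le]
  rintro z ⟨a, b, hab, g, hg, rfl⟩
  obtain ⟨c, u, hu, u', hu', rfl⟩ := decomp hl hl' hm hc k g hg
  have k1 := Submodule.smul_mem _ c (hv a b hab)
  have k2 : l ^ (a + 1) * l' ^ b * u ∈ PP x l l' (s + 1) k ⊔ Submodule.span ℂ {v} :=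
    Submodule.mem_sup_left (gen_mem_PP (by omega) hu)
  have k3 : l ^ a * l' ^ (b + 1) * u' ∈ PP x l l' (s + 1) k ⊔ Submodule.span ℂ {v} :=
    Submodule.mem_sup_left (gen_mem_PP (by omega) hu')
  have := add_mem (add_mem k1 k2) k3
  rw [Algebra.smul_def] at this
  refine (congrArg (· ∈ _) ?_).mp this
  ring

theorem step_gamma {l l' m : K} (hl : l ∈ AA x 1) (hl' : l' ∈ AA x 1) (hm : m ∈ AA x 1)
    (hc : Coord x l l' m) {c a b : ℂ} (hc0 : c ≠ 0) {u v w : K} (hu : u ∈ AA x 3) (hv : v ∈ AA x 3)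
    (hw : w ∈ AA x 3)
    (hrel : algebraMap ℂ K c * m ^ 5 + m ^ 4 * (algebraMap ℂ K a * l + algebraMap ℂ K b * l') +
        l ^ 2 * u + l * l' * v + l' ^ 2 * w = 0) (s k : ℕ) :
    PP x l l' s (k + 4 + 1) ≤ PP x l l' (s + 1) (k + 4) ⊔ Submodule.span ℂ {(0 : K)} := by
  refine step_aux hl hl' hm hc s (k + 4) 0 ?_
  intro i j hij
  have hm5 : m ^ 5 = l * (algebraMap ℂ K (-c⁻¹) * (algebraMap ℂ K a * m ^ 4 + l * u + l' * v)) +
      l' * (algebraMap ℂ K (-c⁻¹) * (algebraMap ℂ K b * m ^ 4 + l' * w)) := by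
    have hcc : algebraMap ℂ K c⁻¹ * algebraMap ℂ K c = 1 := by
      rw [← map_mul, inv_mul_cancel₀ hc0, map_one]
    have : m ^ 5 = algebraMap ℂ K c⁻¹ * (algebraMap ℂ K c * m ^ 5) := by
      rw [← mul_assoc, hcc, one_mul]
    rw [this]
    have e2 : algebraMap ℂ K c * m ^ 5 = -(m ^ 4 * (algebraMap ℂ K a * l + algebraMap ℂ K b * l') +
        l ^ 2 * u + l * l' * v + l' ^ 2 * w) := by
      linear_combination hrel
    rw [e2, map_neg]
    ring
  have hm4 : m ^ 4 ∈ AA x 4 := by simpa using AA_pow hm 4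
  have hmk : m ^ k ∈ AA x k := by simpa using AA_pow hm k
  have h1 : algebraMap ℂ K (-c⁻¹) * (algebraMap ℂ K a * m ^ 4 + l * u + l' * v) ∈ AA x 4 := by
    refine const_mul_mem_AA _ (add_mem (add_mem (const_mul_mem_AA _ hm4) ?_) ?_)
    · simpa using AA_mul hl hu
    · simpa using AA_mul hl' hv
  have h2 : algebraMap ℂ K (-c⁻¹) * (algebraMap ℂ K b * m ^ 4 + l' * w) ∈ AA x 4 := by
    refine const_mul_mem_AA _ (add_mem (const_mul_mem_AA _ hm4) ?_)
    simpa using AA_mul hl' hw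
  have k1 := gen_mem_PP (l := l) (l' := l') (s := s + 1) (a := i + 1) (b := j) (by omega)
    (AA_mul hmk h1)
  have k2 := gen_mem_PP (l := l) (l' := l') (s := s + 1) (a := i) (b := j + 1) (by omega)
    (AA_mul hmk h2)
  refine Submodule.mem_sup_left ?_
  refine (congrArg (· ∈ _) ?_).mp (add_mem k1 k2)
  have e3 : m ^ (k + 4 + 1) = m ^ k * m ^ 5 := by ring
  rw [e3, hm5]
  ring

theorem step_alpha {l l' m : K} (hl : l ∈ AA x 1) (hl' : l' ∈ AA x 1) (hm : m ∈ AA x 1)
    (hc : Coord x l l' m) {a b : ℂ} (ha : a ≠ 0) {u v w : K} (hu : u ∈ AA x 3) (hv : v ∈ AA x 3)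
    (hw : w ∈ AA x 3)
    (hrel : m ^ 4 * (algebraMap ℂ K a * l + algebraMap ℂ K b * l') +
        l ^ 2 * u + l * l' * v + l' ^ 2 * w = 0) (s k : ℕ) :
    PP x l l' s (k + 4 + 1) ≤ PP x l l' (s + 1) (k + 4) ⊔
      Submodule.span ℂ {l' ^ s * m ^ (k + 4 + 1)} := by
  refine step_aux hl hl' hm hc s (k + 4) _ ?_
  have haa : algebraMap ℂ K a⁻¹ * algebraMap ℂ K a = 1 := by
    rw [← map_mul, inv_mul_cancel₀ ha, map_one]
  have hml : m ^ 4 * l = algebraMap ℂ K (-a⁻¹ * b) * (m ^ 4 * l') +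
      algebraMap ℂ K (-a⁻¹) * (l ^ 2 * u + l * l' * v + l' ^ 2 * w) := by
    have e1 : algebraMap ℂ K a * (m ^ 4 * l) = -(algebraMap ℂ K b * (m ^ 4 * l') +
        (l ^ 2 * u + l * l' * v + l' ^ 2 * w)) := by
      linear_combination hrel
    have : m ^ 4 * l = algebraMap ℂ K a⁻¹ * (algebraMap ℂ K a * (m ^ 4 * l)) := by
      rw [← mul_assoc, haa, one_mul]
    rw [this, e1]
    simp only [map_mul, map_neg]
    ring
  have hmk : m ^ (k + 1) ∈ AA x (k + 1) := by
    have := AA_pow hm (k + 1)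
    rwa [mul_one] at this
  intro i
  induction i with
  | zero =>
    intro j hj
    obtain rfl : j = s := by omega
    refine Submodule.mem_sup_right ?_
    rw [pow_zero, one_mul]
    exact Submodule.mem_span_singleton_self _
  | succ i ih =>
    intro j hj
    have k0 := Submodule.smul_mem _ (-a⁻¹ * b) (ih (j + 1) (by omega))
    have q1 := gen_mem_PP (l := l) (l' := l') (s := s + 1) (a := i + 2) (b := j) (by omega)
      (AA_mul hmk hu)
    have q2 := gen_mem_PP (l := l) (l' := l') (s := s + 1) (a := i + 1) (b := j + 1) (by omega)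
      (AA_mul hmk hv)
    have q3 := gen_mem_PP (l := l) (l' := l') (s := s + 1) (a := i) (b := j + 2) (by omega)
      (AA_mul hmk hw)
    have ek : k + 1 + 3 = k + 4 := by omega
    rw [ek] at q1 q2 q3
    have q4 := Submodule.smul_mem _ (-a⁻¹) (add_mem (add_mem q1 q2) q3)
    have q5 := add_mem k0 (Submodule.mem_sup_left
      (T := Submodule.span ℂ {l' ^ s * m ^ (k + 4 + 1)}) q4)
    rw [Algebra.smul_def, Algebra.smul_def] at q5
    refine (congrArg (· ∈ _) ?_).mp q5
    have e3 : l ^ (i + 1) * l' ^ j * m ^ (k + 4 + 1) = l ^ i * l' ^ j * m ^ (k + 1) * (m ^ 4 * l) := by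
      ring
    rw [e3, hml]
    ring

end

theorem pf_Pt5 (hKer : StmtKer) (hDim : StmtDim) : StmtPt5 := by
  intro K _ _ ζ x h l l' hl hl' hli
  obtain ⟨hfd, hd3, hd1⟩ := hDim K ζ x h
  obtain ⟨m, hm, hc, hn⟩ := exists_coord hd1 hl hl' hli
  obtain ⟨c, a, b, hne, u, hu, v, hv, w, hw, hrel⟩ := relation hKer h hl hl' hm hc hn
  -- one step
  have hstep : ∀ s k : ℕ, ∃ z : K, PP x l l' s (k + 4 + 1) ≤
      PP x l l' (s + 1) (k + 4) ⊔ Submodule.span ℂ {z} := by
    intro s k
    by_cases hc0 : c = 0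
    · by_cases ha : a = 0
      · have hb : b ≠ 0 := by
          rcases hne with h | h | h
          · exact absurd hc0 h
          · exact absurd ha h
          · exact h
        have hc' : Coord x l' l m := by
          intro f hf
          obtain ⟨a, b, c, rfl⟩ := hc f hf
          exact ⟨b, a, c, by ring⟩
        refine ⟨l ^ s * m ^ (k + 4 + 1), ?_⟩
        rw [PP_swap, PP_swap (s + 1)]
        refine step_alpha (b := a) hl' hl hm hc' hb hw hv hu ?_ s k
        rw [hc0, map_zero, zero_mul, zero_add] at hrel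
        rw [← hrel]
        ring
      · refine ⟨l' ^ s * m ^ (k + 4 + 1), ?_⟩
        refine step_alpha (b := b) hl hl' hm hc ha hu hv hw ?_ s k
        rw [hc0, map_zero, zero_mul, zero_add] at hrel
        exact hrel
    · exact ⟨0, step_gamma hl hl' hm hc hc0 hu hv hw hrel s k⟩
  have hfin : ∀ s k, FiniteDimensional ℂ (PP x l l' s k) := fun s k => by
    haveI := hfd (s + k)
    exact Submodule.finiteDimensional_of_le (PP_le hl hl' s k)
  have hrank : ∀ s k : ℕ, finrank ℂ (PP x l l' s (k + 4 + 1)) ≤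
      finrank ℂ (PP x l l' (s + 1) (k + 4)) + 1 := by
    intro s k
    obtain ⟨z, hz⟩ := hstep s k
    haveI := hfin (s + 1) (k + 4)
    calc finrank ℂ (PP x l l' s (k + 4 + 1)) ≤
        finrank ℂ (PP x l l' (s + 1) (k + 4) ⊔ Submodule.span ℂ {z} : Submodule ℂ K) :=
          Submodule.finrank_mono hz
      _ ≤ finrank ℂ (PP x l l' (s + 1) (k + 4)) + finrank ℂ (Submodule.span ℂ {z}) :=
          Submodule.finrank_add_le_finrank_add_finrank _ _
      _ ≤ _ := by
          have := finrank_span_le_card (R := ℂ) ({z} : Set K)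
          simp only [Set.toFinset_singleton, Finset.card_singleton] at this
          omega
  refine ⟨9, fun q hq => ?_⟩
  obtain ⟨t, rfl⟩ : ∃ t, q = t + 9 := ⟨q - 9, by omega⟩
  refine ⟨PP x l l' 5 (t + 4), ?_, ?_, ?_⟩
  · have := PP_le (x := x) hl hl' 5 (t + 4)
    rwa [show 5 + (t + 4) = t + 9 by omega] at this
  · have h0 : PP x l l' 0 (t + 9) = AA x (t + 9) := by
      refine le_antisymm ?_ ?_
      · have := PP_le (x := x) hl hl' 0 (t + 9)
        rwa [zero_add] at this
      · intro g hg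
        have := gen_mem_PP (l := l) (l' := l') (s := 0) (a := 0) (b := 0) rfl hg
        simpa using this
    have r0 := hrank 0 (t + 4)
    have r1 := hrank 1 (t + 3)
    have r2 := hrank 2 (t + 2)
    have r3 := hrank 3 (t + 1)
    have r4 := hrank 4 t
    have := hd3 (t + 9) (by omega)
    rw [← h0] at this
    rw [show t + 4 + 4 + 1 = t + 9 by omega, show t + 4 + 4 = t + 8 by omega] at r0
    rw [show t + 3 + 4 + 1 = t + 8 by omega, show t + 3 + 4 = t + 7 by omega] at r1
    rw [show t + 2 + 4 + 1 = t + 7 by omega, show t + 2 + 4 = t + 6 by omega] at r2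
    rw [show t + 1 + 4 + 1 = t + 6 by omega, show t + 1 + 4 = t + 5 by omega] at r3
    rw [show t + 4 + 1 = t + 5 by omega] at r4
    simp only [zero_add, Nat.reduceAdd] at r0 r1 r2 r3 r4
    omega
  · intro z hz b hb
    refine Submodule.span_induction (p := fun b _ => z * b ∈ AA x (t + 9)) ?_ ?_ ?_ ?_ hb
    · rintro y ⟨i, j, hij, g, hg, rfl⟩
      have h1 := AA_mul (hz i (by omega)) hg
      rw [show 5 + (t + 4) = t + 9 by omega, show 5 - i = j by omega] at h1
      refine (congrArg (· ∈ _) ?_).mp h1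
      ring
    · rw [mul_zero]; exact zero_mem _
    · intro y y' _ _ hy hy'
      rw [mul_add]; exact add_mem hy hy'
    · intro c y _ hy
      rw [mul_smul_comm]; exact Submodule.smul_mem _ _ hy

end Pool.Agent.Helper51.Rig
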